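import Pool.Agent.helper97.IRO.Spec

set_option autoImplicit false

/-! Row iro:G9 (helper9). -/

open MeasureTheory Pool.Agent.LOF

namespace Pool.Agent.IRO

theorem G9_std (hEMB : EMB_stmt) (hGE7 : GE7_stmt) (m j : ℕ) (hj : j < 2 ^ m) (g : F)
    (hg : g ∈ FI ((j : ℝ) / 2 ^ m) (((j : ℝ) + 1) / 2 ^ m)) (h1 : gR g.1 ((j : ℝ) / 2 ^ m) 0)
    (h2 : gL g.1 (((j : ℝ) + 1) / 2 ^ m) 0) :
    g ∈ ⁅FI ((j : ℝ) / 2 ^ m) (((j : ℝ) + 1) / 2 ^ m), FI ((j : ℝ) / 2 ^ m) (((j : ℝ) + 1) / 2 ^ m)⁆ := by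
  obtain ⟨φ, hφ, -, hL, hR⟩ := hEMB m j hj
  rw [← hφ] at hg ⊢
  obtain ⟨u, rfl⟩ := hg
  have h3 := hGE7.2 u ((hR u 0).2 h1) ((hL u 0).2 h2)
  have h4 : φ u ∈ (commutator F).map φ := Subgroup.mem_map_of_mem φ h3
  rw [commutator_def, Subgroup.map_commutator, ← MonoidHom.range_eq_map] at h4
  exact h4

theorem G9_conj (hG7 : G7_stmt) {a b : ℝ} (t g : F) (hg : g ∈ FI a b) (h1 : gR g.1 a 0)
    (h2 : gL g.1 b 0)
    (h : ∀ u ∈ FI (t.1 a) (t.1 b), gR u.1 (t.1 a) 0 → gL u.1 (t.1 b) 0 →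
      u ∈ ⁅FI (t.1 a) (t.1 b), FI (t.1 a) (t.1 b)⁆) : g ∈ ⁅FI a b, FI a b⁆ := by
  have h3 := h (t * g * t⁻¹) (FI_conj hg t) ((hG7 t g a 0).2 h1) ((hG7 t g b 0).1 h2)
  have h4 : (MulAut.conj t⁻¹).toMonoidHom (t * g * t⁻¹) ∈
      (⁅FI (t.1 a) (t.1 b), FI (t.1 a) (t.1 b)⁆).map (MulAut.conj t⁻¹).toMonoidHom :=
    Subgroup.mem_map_of_mem _ h3
  rw [Subgroup.map_commutator] at h4
  have h5 : (FI (t.1 a) (t.1 b)).map (MulAut.conj t⁻¹).toMonoidHom ≤ FI a b := by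
    rintro _ ⟨v, hv, rfl⟩
    have h7 := FI_conj hv t⁻¹
    have h8 : (t⁻¹ : F).1 (t.1 a) = a := t.1.symm_apply_apply a
    have h9 : (t⁻¹ : F).1 (t.1 b) = b := t.1.symm_apply_apply b
    rw [h8, h9] at h7
    exact h7
  have h6 : (MulAut.conj t⁻¹).toMonoidHom (t * g * t⁻¹) = g := by
    show t⁻¹ * (t * g * t⁻¹) * t⁻¹⁻¹ = g
    group
  rw [h6] at h4
  exact Subgroup.commutator_mono h5 h5 h4

theorem G9_main (hEMB : EMB_stmt) (hGE7 : GE7_stmt) (hG7 : G7_stmt) {a b : ℝ} (t g : F)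
    (hg : g ∈ FI a b) (h1 : gR g.1 a 0) (h2 : gL g.1 b 0) (m j : ℕ) (hj : j < 2 ^ m)
    (ha : t.1 a = (j : ℝ) / 2 ^ m) (hb : t.1 b = ((j : ℝ) + 1) / 2 ^ m) :
    g ∈ ⁅FI a b, FI a b⁆ := by
  apply G9_conj hG7 t g hg h1 h2
  rw [ha, hb]
  exact G9_std hEMB hGE7 m j hj

theorem G9 (hG5 : G5_stmt) (hEMB : EMB_stmt) (hGE7 : GE7_stmt) (hG7 : G7_stmt) : G9_stmt := by
  rintro a b g ⟨ha, hb, ha0, hab, hb1⟩ hg h1 h2
  have out0 : ∀ g : F, g.1 0 = 0 := fun g => F.out g.2 (by simp)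
  have out1 : ∀ g : F, g.1 1 = 1 := fun g => F.out g.2 (by simp)
  have dyhalf : IsDyadic (1 / 2 : ℝ) := ⟨1, 1, by norm_num⟩
  have dyq : IsDyadic (1 / 4 : ℝ) := ⟨1, 2, by norm_num⟩
  rcases ha0.eq_or_lt with h0 | h0
  · rcases hb1.eq_or_lt with h1' | h1'
    · refine G9_main hEMB hGE7 hG7 1 g hg h1 h2 0 0 (by norm_num) ?_ ?_
      · rw [← h0, out0]
        norm_num
      · rw [h1', out1]
        norm_num
    · obtain ⟨t, ht⟩ := hG5 1 (fun _ => b) (fun _ => 1 / 2) (fun _ => ⟨hb, by linarith, h1'⟩)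
        (fun _ => ⟨dyhalf, by norm_num, by norm_num⟩) (Subsingleton.strictMono _)
        (Subsingleton.strictMono _)
      refine G9_main hEMB hGE7 hG7 t g hg h1 h2 1 0 (by norm_num) ?_ ?_
      · rw [← h0, out0]
        norm_num
      · rw [ht 0]
        norm_num
  · rcases hb1.eq_or_lt with h1' | h1'
    · obtain ⟨t, ht⟩ := hG5 1 (fun _ => a) (fun _ => 1 / 2) (fun _ => ⟨ha, h0, by linarith⟩)
        (fun _ => ⟨dyhalf, by norm_num, by norm_num⟩) (Subsingleton.strictMono _)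
        (Subsingleton.strictMono _)
      refine G9_main hEMB hGE7 hG7 t g hg h1 h2 1 1 (by norm_num) ?_ ?_
      · rw [ht 0]
        norm_num
      · rw [h1', out1]
        norm_num
    · obtain ⟨t, ht⟩ := hG5 2 ![a, b] ![1 / 4, 1 / 2]
        (by
          intro i
          fin_cases i
          · exact ⟨ha, h0, by simp; linarith⟩
          · exact ⟨hb, by simp; linarith, h1'⟩)
        (by
          intro i
          fin_cases i
          · exact ⟨dyq, by norm_num, by norm_num⟩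
          · exact ⟨dyhalf, by norm_num, by norm_num⟩)
        (by
          intro i j hij
          fin_cases i <;> fin_cases j <;> simp at hij ⊢
          exact hab)
        (by
          intro i j hij
          fin_cases i <;> fin_cases j <;> simp at hij ⊢
          norm_num)
      have e0 : t.1 a = 1 / 4 := ht 0
      have e1 : t.1 b = 1 / 2 := ht 1
      refine G9_main hEMB hGE7 hG7 t g hg h1 h2 2 1 (by norm_num) ?_ ?_
      · rw [e0]
        norm_num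
      · rw [e1]
        norm_num

end Pool.Agent.IRO
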